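import Pool.Agent.Lib.MP_2d7a7c_co.PQ.Board2
import Pool.Agent.Lib.MP_2d7a7c_co.PQ.Jubin

/-!
# Peaceable queens whose colours are separated by the middle line

Squares are pairs (row, column). No white square shares a row, column or diagonal with a black one.
If the white squares lie in the rows below a line, the black ones above it, and `M` bounds the
number of rows on either side of the line, then `min |W| |B| ≤ 7 M ^ 2 / 12 + 5 M / 3 + 5 / 4`;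
nothing is assumed about the columns. For `M = ⌈n / 2⌉` this is `7 n ^ 2 / 48 + O(n)`, and this is
sharp for every `n` (second part, Jubin's four pentagons).
-/

set_option autoImplicit false

namespace Pool.Agent.Results.MP_2d7a7c_co.SeparatedMidline

theorem result :
    (∀ (n h M : ℕ) (W B : Finset (Fin n × Fin n)),
      (∀ w ∈ W, ∀ b ∈ B, w.1 ≠ b.1 ∧ w.2 ≠ b.2 ∧
        ((w.1 : ℕ) : ℤ) - ((w.2 : ℕ) : ℤ) ≠ ((b.1 : ℕ) : ℤ) - ((b.2 : ℕ) : ℤ) ∧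
        (w.1 : ℕ) + (w.2 : ℕ) ≠ (b.1 : ℕ) + (b.2 : ℕ)) →
      (∀ w ∈ W, (w.1 : ℕ) < h) → (∀ b ∈ B, h ≤ (b.1 : ℕ)) → h ≤ M → n ≤ h + M →
      12 * min W.card B.card ≤ 7 * M ^ 2 + 20 * M + 15) ∧
    (∀ n : ℕ, ∃ W B : Finset (Fin n × Fin n), W.card = B.card ∧
      (∀ w ∈ W, ∀ b ∈ B, w.1 ≠ b.1 ∧ w.2 ≠ b.2 ∧
        ((w.1 : ℕ) : ℤ) - ((w.2 : ℕ) : ℤ) ≠ ((b.1 : ℕ) : ℤ) - ((b.2 : ℕ) : ℤ) ∧
        (w.1 : ℕ) + (w.2 : ℕ) ≠ (b.1 : ℕ) + (b.2 : ℕ)) ∧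
      (∀ w ∈ W, 2 * (w.1 : ℕ) < n) ∧ (∀ b ∈ B, n ≤ 2 * (b.1 : ℕ)) ∧
      7 * n ^ 2 ≤ 48 * W.card + 330 * n + 3703) := by
  refine ⟨?_, ?_⟩
  · intro n h M W B h1 h2 h3 h4 h5
    exact Pool.Agent.Lib.MP_2d7a7c_co.PQ.board_min n h M W B h1 h2 h3 h4 h5
  · intro n
    rcases Nat.lt_or_ge n 24 with hn | hn
    · refine ⟨∅, ∅, rfl, ?_, ?_, ?_, ?_⟩
      · simp
      · simp
      · simp
      · have : n ≤ 23 := by omega
        nlinarith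
    · obtain ⟨q, hq1, hq2, hq3⟩ : ∃ q : ℕ, 1 ≤ q ∧ 24 * q ≤ n ∧ n ≤ 24 * q + 23 :=
        ⟨n / 24, by omega, by omega, by omega⟩
      obtain ⟨W, B, a1, a2, a3, a4, a5, -, -⟩ :=
        Pool.Agent.Lib.MP_2d7a7c_co.PQ.construction n q hq1 hq2
      refine ⟨W, B, a1.trans a2.symm, a3, a4, a5, ?_⟩
      have h1 : 84 * q ^ 2 ≤ W.card + 4 * q := by omega
      have h2 : n ^ 2 ≤ (24 * q + 23) ^ 2 := Nat.pow_le_pow_left hq3 2
      nlinarith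

end Pool.Agent.Results.MP_2d7a7c_co.SeparatedMidline
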